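import Pool.Agent.Helper2.EC_C.Goals

/-!
# MP_ecc237_nt, Part C, packet S3S
-/

set_option autoImplicit false

open MeasureTheory Filter Topology Set

namespace ECC.PkS3S

open EC237 ECC

theorem s3s (fr : G_FR) (w_ : G_W) (sg_ : G_SG) : S3s := by
  obtain ⟨hw, C, hC⟩ := w_
  have hpi := Real.pi_pos
  refine ⟨Real.pi / 4 * C, Real.pi / 3, by positivity, fun y hy hy1 => ?_⟩
  have hy' : 0 < 1 / (3 * y) := by positivity
  have h1 : (1:ℝ) / 3 ≤ 1 / (3 * y) := one_div_le_one_div_of_le (by positivity) (by linarith)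
  have h2 := hC _ h1
  have hwy := (hw y hy).1
  have hwy' := (hw _ hy').1
  have h3 : Real.log (ww y) + Real.log (ww (1 / (3 * y))) = Real.log 9 := by
    rw [← Real.log_mul hwy.ne' hwy'.ne', fr y hy]
  have h4 : Real.log (ww y) = -(4 / Real.pi) * sg y := by
    rw [← (sg_ y hy).2.2, Real.log_exp]
  have h5 : sg y = -(Real.pi / 4) * Real.log (ww y) := by
    rw [h4]
    field_simp
  have h6 : sg y + Real.pi ^ 2 / 12 * y⁻¹ = Real.pi / 4 *
      (Real.log (ww (1 / (3 * y))) - (Real.log 9 - Real.pi * (1 / (3 * y)))) := by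
    rw [h5, ← h3]
    field_simp
    ring
  have h7 : -(Real.pi / 3 / y) = -(Real.pi * (1 / (3 * y))) := by
    field_simp
  rw [h6, abs_mul, abs_of_pos (by positivity : (0:ℝ) < Real.pi / 4), h7, mul_assoc]
  exact mul_le_mul_of_nonneg_left h2 (by positivity)

end ECC.PkS3S
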