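import Pool.Agent.Helper2.EC_C.Goals
import Pool.Agent.Helper2.EC_C.Basic

/-!
# MP_ecc237_nt, Part C, packet X
-/

set_option autoImplicit false

open MeasureTheory Filter Topology Set

namespace ECC.PkX

open EC237 ECC

/-- the case `0 < p < 1` -/
theorem x_pos (at_ : G_AT) (xt : G_XT) (b1 : G_B1) (b2 : G_B2) (p : ℝ) (hp0 : 0 < p)
    (hp1 : p < 1) :
    54 * XS p = (aS p + 2 * aS (p ^ 2)) ^ 2 * (aS p - aS (p ^ 2)) ∧
    108 * XS (p ^ 2) = (aS p + 2 * aS (p ^ 2)) * (aS p - aS (p ^ 2)) ^ 2 := by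
  have hpi := Real.pi_pos
  set s : ℝ := -Real.log p / (2 * Real.pi) with hs
  have hs0 : 0 < s := by
    have := Real.log_neg hp0 hp1
    rw [hs]
    exact div_pos (by linarith) (by positivity)
  have hp : Real.exp (-(2 * Real.pi * s)) = p := by
    have : -(2 * Real.pi * s) = Real.log p := by
      rw [hs]
      field_simp
    rw [this, Real.exp_log hp0]
  set q : ℝ := Real.exp (-(2 * Real.pi / (3 * (2 * s)))) with hq
  have hq2 : Real.exp (-(2 * Real.pi / (3 * s))) = q ^ 2 := by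
    rw [hq, ← Real.exp_nat_mul]
    congr 1
    push_cast
    field_simp
  have hp2 : Real.exp (-(2 * Real.pi * (2 * s))) = p ^ 2 := by
    rw [← hp, ← Real.exp_nat_mul]
    congr 1
    push_cast
    ring
  have hq1 : |q| < 1 := by
    rw [hq, abs_of_pos (Real.exp_pos _), Real.exp_lt_one_iff]
    have : 0 < 2 * Real.pi / (3 * (2 * s)) := by positivity
    linarith
  have h1 : aS q = Real.sqrt 3 * (2 * s) * aS (p ^ 2) := by
    rw [← hp2]
    exact at_ (2 * s) (by positivity)
  have h2 : aS (q ^ 2) = Real.sqrt 3 * s * aS p := by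
    rw [← hq2, ← hp]
    exact at_ s hs0
  have h3 : XS (p ^ 2) = (1 / (6 * s)) ^ 3 * bS q / (3 * Real.sqrt 3) := by
    have h := xt (1 / (6 * s)) (by positivity)
    have e1 : -(2 * Real.pi / (3 * (1 / (6 * s)))) = -(2 * Real.pi * (2 * s)) := by
      field_simp
      norm_num
    have e2 : -(2 * Real.pi * (1 / (6 * s))) = -(2 * Real.pi / (3 * (2 * s))) := by
      field_simp
      norm_num
    rw [e1, e2, hp2] at h
    exact h
  have h4 : XS p = (1 / (3 * s)) ^ 3 * bS (q ^ 2) / (3 * Real.sqrt 3) := by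
    have h := xt (1 / (3 * s)) (by positivity)
    have e1 : -(2 * Real.pi / (3 * (1 / (3 * s)))) = -(2 * Real.pi * s) := by
      field_simp
    have e2 : -(2 * Real.pi * (1 / (3 * s))) = -(2 * Real.pi / (3 * s)) := by
      field_simp
    rw [e1, e2, hp, hq2] at h
    exact h
  have h5 := b1 q hq1
  have h6 := b2 q hq1
  have hsq : Real.sqrt 3 ^ 2 = 3 := Real.sq_sqrt (by norm_num)
  have hsq0 : 0 < Real.sqrt 3 := Real.sqrt_pos.mpr (by norm_num)
  unfold AA BB at h5 h6
  rw [h1, h2] at h5 h6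
  constructor
  · rw [h4, h6]
    field_simp
    rw [hsq]
    ring
  · rw [h3, h5]
    field_simp
    rw [hsq]
    ring

theorem x_ (at_ : G_AT) (xt : G_XT) (b1 : G_B1) (b2 : G_B2) (par : G_PAR) (c18 : G_C18) :
    G_X := by
  intro p hp
  rcases lt_trichotomy p 0 with h0 | h0 | h0
  · have hr0 : 0 < -p := by linarith
    have hr1 : -p < 1 := by
      rw [abs_of_neg h0] at hp
      exact hp
    have hr : |(-p)| < 1 := by rwa [abs_neg]
    have hr2 : (-p) ^ 2 < 1 := by nlinarith
    have hr20 : 0 < (-p) ^ 2 := by positivity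
    obtain ⟨x1, x2⟩ := x_pos at_ xt b1 b2 (-p) hr0 hr1
    obtain ⟨x3, x4⟩ := x_pos at_ xt b1 b2 ((-p) ^ 2) hr20 hr2
    obtain ⟨a1, -, a3, -⟩ := par (-p) hr
    have c := c18 (-p) hr
    have e4 : ((-p) ^ 2) ^ 2 = (-p) ^ 4 := by ring
    have e2 : (-p) ^ 2 = p ^ 2 := by ring
    rw [neg_neg] at a1 a3
    rw [e4] at x3 x4
    rw [← e2, a1, a3]
    generalize aS (-p) = a at *
    generalize aS ((-p) ^ 2) = b at *
    generalize aS ((-p) ^ 4) = g at *
    generalize XS (-p) = X1 at *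
    generalize XS ((-p) ^ 2) = X2 at *
    generalize XS ((-p) ^ 4) = X4 at *
    constructor
    · linear_combination -x1 + 6 * x3 + 4 * x4 - 6 * (g + b) * c
    · linear_combination x2 + 2 * (a - g) * c
  · subst h0
    have e : (0:ℝ) ^ 2 = 0 := by norm_num
    have hX : XS 0 = 0 := by
      unfold XS
      exact LS_zero _
    rw [e, hX, aS_zero]
    norm_num
  · rw [abs_of_pos h0] at hp
    exact x_pos at_ xt b1 b2 p h0 hp

end ECC.PkX
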